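import Pool.Agent.Q205.PKL.Rev
import Pool.Agent.Q204.LL.Defs

/-!
# `PK ≡ lim * PK` for closed sets: the perfect kernel of a tree as a tree has the Weihrauch degree of
the compositional product of `lim` with the perfect kernel problem for closed sets

Given an instance, the first functional produces a tree `T`.  From the answers to countably many
`Σ¹₁` questions, which one instance of `PK` provides, one builds a tree with body the perfect kernel
of `[T]` by killing every node outside the perfect kernel of `T` after a finite delay; the delays are
chosen generically, so that also the answers to all questions about the limit of the sequence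
produced by the second functional are obtained.
-/

set_option autoImplicit false

namespace Pool.Agent.Results.MP_a7e1fe_lc.PKIsLimStarPK

open Q204.WD Q204.LL Pool.Agent.Q205.PKL

/-- **Answer to Q1: the equivalence holds.**  `PK` is a problem of the degree of the compositional
product `lim * PKN`, where `PKN` is the perfect kernel problem for closed subsets of Baire space, and
`PK` is Weihrauch equivalent to each problem of this degree. -/
theorem result : IsStar Lim PKN PK ∧ ∀ h : Problem, IsStar Lim PKN h → WEquiv PK h := by
  have h1 : IsStar Lim PKN PK :=
    ⟨⟨F0, PKN, F0_le, WRed.refl PKN, PK_le, star_le F0 PKN F0_le (WRed.refl PKN)⟩, star_le⟩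
  refine ⟨h1, fun h hh => ?_⟩
  obtain ⟨⟨f₀, g₀, hf, hg, heq⟩, hmax⟩ := hh
  exact ⟨PK_le.trans (hmax F0 PKN F0_le (WRed.refl PKN)), heq.1.trans (star_le f₀ g₀ hf hg)⟩

end Pool.Agent.Results.MP_a7e1fe_lc.PKIsLimStarPK
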